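import Mathlib
import Pool.Agent.Y805.IL.Poly
import Pool.Agent.Y805.IL.Jo

/-!
# MP_22e672_co: illuminating a polytope apart from its `i`-dimensional faces, all pairs `(d, i)`

The definitions `IsPolytope`, `IsFace`, `HasDim`, `X`, `Illuminates`, `cube` are those of
`Pool.Agent.Results.MP_22e672_co.CubeDisproof`; `Illum P i S` (all points of `S` lie outside `P` and
`S` illuminates `X i P`) and `Covers d t A` (`A` is a binary covering array of strength `t` with `d`
columns) are defined in `Pool.Agent.Y805.IL.Cube`.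
-/

namespace Pool.Agent.Results.MP_22e672_co.AllPairs

open Pool.Agent.Results.MP_22e672_co.CubeDisproof Pool.Agent.Y805.IL

lemma lower_all {d i : ℕ} (hid : i + 3 ≤ d) (S : Finset (EuclideanSpace ℝ (Fin d)))
    (hS : Illum (cube d) i S) (M : ℕ) (hM : (M - 1).choose (M / 2 - 1) < i + 3) :
    2 ^ (d - 3 - i) * (M + 1) ≤ S.card := by
  obtain ⟨A, hA, hcov⟩ := (cube_iff d i S.card (by omega)).1 ⟨S, le_rfl, hS⟩
  have h := covers_lower' (d := d) (t := d - 1 - i) (by omega) (by omega) M (by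
    have : cols M = (M - 1).choose (M / 2 - 1) := rfl
    omega) A hcov
  have e : d - 1 - i - 2 = d - 3 - i := by omega
  rw [e] at h
  exact h.trans hA

lemma lower_log {d i : ℕ} (hid : i + 3 ≤ d) (S : Finset (EuclideanSpace ℝ (Fin d)))
    (hS : Illum (cube d) i S) : 2 ^ (d - 3 - i) * (Nat.log 2 (i + 2) + 2) ≤ S.card := by
  refine lower_all hid S hS (Nat.log 2 (i + 2) + 1) ?_
  have h1 : Nat.log 2 (i + 2) + 1 - 1 = Nat.log 2 (i + 2) := by omega
  rw [h1]
  have h2 := Nat.choose_le_two_pow (Nat.log 2 (i + 2)) ((Nat.log 2 (i + 2) + 1) / 2 - 1)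
  have h3 := Nat.pow_log_le_self 2 (show i + 2 ≠ 0 by omega)
  omega

lemma yes {d i : ℕ} (hd : 2 ≤ d) (hi : i < d) (hid : d ≤ i + 2)
    {P : Set (EuclideanSpace ℝ (Fin d))} (hP : IsPolytope P) :
    ∃ S : Finset (EuclideanSpace ℝ (Fin d)), S.card ≤ 2 ^ (d - 1 - i) ∧ Illum P i S := by
  rcases (by omega : i = d - 1 ∨ i = d - 2) with rfl | rfl
  · refine ⟨∅, by simp, by simp, fun b hb => ?_⟩
    rw [X_top (by omega) hP] at hb
    exact absurd hb (Set.notMem_empty b)
  · have e : d - 1 - (d - 2) = 1 := by omega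
    rw [e]
    exact two_sources hd hP

/-- **Answer to Q1 for all pairs `(d, i)` with `i ≥ 1`, and the exact numbers for the cube.** -/
theorem result :
    -- (1) complete answer for all pairs `(d, i)` with `i ≥ 1`: `2 ^ (d - 1 - i)` sources are enough
    -- for every `d`-dimensional polytope if and only if `i ≥ d - 2`
    (∀ d i : ℕ, 2 ≤ d → 1 ≤ i → i < d →
      ((∀ P : Set (EuclideanSpace ℝ (Fin d)), IsPolytope P →
        ∃ S : Finset (EuclideanSpace ℝ (Fin d)), S.card ≤ 2 ^ (d - 1 - i) ∧ Illum P i S) ↔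
          d ≤ i + 2)) ∧
    -- (2) the positive part, for every polytope (for `d = 2` it contains the case `i = 0`)
    (∀ d : ℕ, 2 ≤ d → ∀ P : Set (EuclideanSpace ℝ (Fin d)), IsPolytope P →
      X (d - 1) P = ∅ ∧
      ∃ S : Finset (EuclideanSpace ℝ (Fin d)), S.card ≤ 2 ∧ Illum P (d - 2) S) ∧
    -- (3) the cube is a polytope, and `N` sources are enough for `X i` of the cube if and only if
    -- there is a binary covering array of strength `d - 1 - i` with `d` columns and `N` rows
    (∀ d : ℕ, IsPolytope (cube d)) ∧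
    (∀ d i N : ℕ, i + 2 ≤ d →
      ((∃ S : Finset (EuclideanSpace ℝ (Fin d)), S.card ≤ N ∧ Illum (cube d) i S) ↔
        ∃ A : Finset (Fin d → Bool), A.card ≤ N ∧ Covers d (d - 1 - i) A)) ∧
    -- (4) the exact numbers for the cube, `i = 0`, `i = 1` and `i = d - 3`
    (∀ d N : ℕ, 2 ≤ d →
      ((∃ S : Finset (EuclideanSpace ℝ (Fin d)), S.card ≤ N ∧ Illum (cube d) 0 S) ↔
        2 ^ (d - 1) ≤ N)) ∧
    (∀ d N : ℕ, 3 ≤ d →
      ((∃ S : Finset (EuclideanSpace ℝ (Fin d)), S.card ≤ N ∧ Illum (cube d) 1 S) ↔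
        2 ^ d / 3 ≤ N)) ∧
    (∀ d N : ℕ, 3 ≤ d →
      ((∃ S : Finset (EuclideanSpace ℝ (Fin d)), S.card ≤ N ∧ Illum (cube d) (d - 3) S) ↔
        d ≤ (N - 1).choose (N / 2 - 1))) ∧
    -- (5) lower and upper bounds for the cube, all `i`
    (∀ d i : ℕ, i + 3 ≤ d → ∀ S : Finset (EuclideanSpace ℝ (Fin d)), Illum (cube d) i S →
      (∀ M : ℕ, (M - 1).choose (M / 2 - 1) < i + 3 → 2 ^ (d - 3 - i) * (M + 1) ≤ S.card) ∧
      2 ^ (d - 3 - i) * (Nat.log 2 (i + 2) + 2) ≤ S.card) ∧
    (∀ d i : ℕ, i + 2 ≤ d → ∃ S : Finset (EuclideanSpace ℝ (Fin d)),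
      (i + 2) * S.card ≤ 2 ^ d ∧ Illum (cube d) i S) ∧
    -- (6) the number `2 ^ (d - 1 - i)` is wrong by an unbounded factor, in every dimension
    (∀ C d i : ℕ, 2 ^ (4 * C) ≤ i → i + 3 ≤ d →
      ∀ S : Finset (EuclideanSpace ℝ (Fin d)), Illum (cube d) i S →
        C * 2 ^ (d - 1 - i) < S.card) := by
  refine ⟨?_, ?_, cube_isPolytope, fun d i N h => cube_iff d i N h, ?_, ?_, ?_, ?_, ?_, ?_⟩
  · intro d i hd hi hid
    constructor
    · intro h
      by_contra hcon
      push Not at hcon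
      obtain ⟨S, hS, hill⟩ := h (cube d) (cube_isPolytope d)
      have h1 := lower_all (by omega) S hill 4 (by
        have : (4 - 1).choose (4 / 2 - 1) = 3 := by decide
        omega)
      have e : d - 1 - i = d - 3 - i + 2 := by omega
      rw [e, pow_add] at hS
      have : 0 < 2 ^ (d - 3 - i) := by positivity
      omega
    · intro h P hP
      exact yes hd hid h hP
  · intro d hd P hP
    exact ⟨X_top (by omega) hP, two_sources hd hP⟩
  · intro d N hd
    rw [cube_iff d 0 N (by omega)]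
    have e : d - 1 - 0 = d - 1 := by omega
    rw [e]
    constructor
    · rintro ⟨A, hA, hcov⟩
      exact (covers_trivial (by omega) A hcov).trans hA
    · intro h
      obtain ⟨A, hA, hcov⟩ := covers_upper (d := d) (t := d - 1) (by omega)
      refine ⟨A, ?_, hcov⟩
      have e : d - (d - 1) + 1 = 2 := by omega
      have e2 : 2 ^ d = 2 * 2 ^ (d - 1) := by
        conv_lhs => rw [show d = (d - 1) + 1 by omega, pow_succ]
        ring
      rw [e, e2] at hA
      omega
  · intro d N hd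
    rw [cube_iff d 1 N (by omega)]
    have e : d - 1 - 1 = d - 2 := by omega
    rw [e]
    exact strength_codim_two (by omega) N
  · intro d N hd
    rw [cube_iff d (d - 3) N (by omega)]
    have e : d - 1 - (d - 3) = 2 := by omega
    rw [e]
    exact strength_two_iff (by omega) N
  · intro d i hid S hS
    exact ⟨fun M hM => lower_all hid S hS M hM, lower_log hid S hS⟩
  · intro d i hid
    obtain ⟨A, hA, hcov⟩ := covers_upper (d := d) (t := d - 1 - i) (by omega)
    obtain ⟨S, hS, hill⟩ := (cube_iff d i A.card hid).2 ⟨A, le_rfl, hcov⟩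
    refine ⟨S, ?_, hill⟩
    have e : d - (d - 1 - i) + 1 = i + 2 := by omega
    rw [e] at hA
    exact (Nat.mul_le_mul_left _ hS).trans hA
  · intro C d i hC hid S hS
    have h := lower_log hid S hS
    have e : d - 1 - i = d - 3 - i + 2 := by omega
    rw [e, pow_add]
    have h1 : 4 * C ≤ Nat.log 2 (i + 2) := Nat.le_log_of_pow_le (by norm_num) (by omega)
    have h2 : 0 < 2 ^ (d - 3 - i) := by positivity
    calc C * (2 ^ (d - 3 - i) * 2 ^ 2) = 2 ^ (d - 3 - i) * (4 * C) := by ring
      _ < 2 ^ (d - 3 - i) * (Nat.log 2 (i + 2) + 2) := by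
          apply Nat.mul_lt_mul_of_pos_left _ h2
          omega
      _ ≤ S.card := h

end Pool.Agent.Results.MP_22e672_co.AllPairs
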